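import Mathlib
import Pool.Agent.Y745.LD.DefsA

/-!
# LD project: the weighted mean of the prime sums of large frequency
-/

set_option autoImplicit false

namespace Pool.Agent.Y811.LD

open Filter Topology MeasureTheory Complex Pool.Agent.Y745.SW Pool.Agent.Y745.LD

noncomputable section

/-! ### the coefficients -/

/-- `Gp` without the condition -/
def Gq (B : ℝ → ℝ) (a u v : ℝ) : ℝ :=
  1 / Real.sqrt (2 * Real.pi) * ∫ ξ in (-1:ℝ)..1, B ξ * Real.exp (-(u + ξ * a - v) ^ 2 / 2)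

theorem Gp_eq {B : ℝ → ℝ} {a u v : ℝ} (ha : 0 ≤ a) (hu : a ≤ u) : Gp B a u v = Gq B a u v := by
  unfold Gp Gq
  congr 1
  apply intervalIntegral.integral_congr
  intro ξ hξ
  rw [Set.uIcc_of_le (by norm_num)] at hξ
  have : 0 ≤ u + ξ * a := by nlinarith [hξ.1]
  simp only [if_pos this]

theorem Gq_cont {B : ℝ → ℝ} (hB : Continuous B) (a v : ℝ) : Continuous (fun u => Gq B a u v) := by
  unfold Gq
  refine continuous_const.mul ?_
  refine intervalIntegral.continuous_parametric_intervalIntegral_of_continuous' ?_ _ _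
  unfold Function.uncurry
  fun_prop

theorem Gq_le {B : ℝ → ℝ} {a u v M E : ℝ} (hM : ∀ ξ, |B ξ| ≤ M) (hM0 : 0 ≤ M)
    (h : ∀ ξ, -1 ≤ ξ → ξ ≤ 1 → Real.exp (-(u + ξ * a - v) ^ 2 / 2) ≤ E) :
    |Gq B a u v| ≤ 2 * M * E := by
  unfold Gq
  rw [abs_mul]
  have h1 : |1 / Real.sqrt (2 * Real.pi)| ≤ 1 := by
    rw [abs_of_nonneg (by positivity)]
    rw [div_le_one (by positivity)]
    rw [Real.one_le_sqrt]
    nlinarith [Real.pi_gt_three]
  have h2 : ‖∫ ξ in (-1:ℝ)..1, B ξ * Real.exp (-(u + ξ * a - v) ^ 2 / 2)‖ ≤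
      (M * E) * |1 - (-1)| := by
    apply intervalIntegral.norm_integral_le_of_norm_le_const
    intro ξ hξ
    rw [Set.uIoc_of_le (by norm_num)] at hξ
    rw [norm_mul, Real.norm_eq_abs, Real.norm_eq_abs, abs_of_nonneg (Real.exp_pos _).le]
    exact mul_le_mul (hM ξ) (h ξ hξ.1.le hξ.2) (Real.exp_pos _).le hM0
  rw [Real.norm_eq_abs] at h2
  have h3 : |(1:ℝ) - (-1)| = 2 := by norm_num
  rw [h3] at h2
  calc _ ≤ 1 * (M * E * 2) := mul_le_mul h1 h2 (abs_nonneg _) zero_le_one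
    _ = 2 * M * E := by ring

/-- the size of the coefficients -/
theorem coef_le {B : ℝ → ℝ} {a u M : ℝ} (hM : ∀ ξ, |B ξ| ≤ M) (hM0 : 0 ≤ M) (ha : 2 ≤ a)
    (hu : 2 * a ≤ u) {n : ℕ} (hn : 1 ≤ n) :
    |(Real.sqrt n)⁻¹ * Gq B a u (Real.log n)| ≤ 2 * M * Real.exp (-(a / 4)) := by
  have hn0 : (0 : ℝ) < n := by exact_mod_cast hn
  have hn1 : (1 : ℝ) ≤ n := by exact_mod_cast hn
  have hs : 0 < Real.sqrt n := Real.sqrt_pos.2 hn0
  rw [abs_mul, abs_of_pos (inv_pos.2 hs)]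
  rcases le_or_gt (Real.log n) (a / 2) with h | h
  · have h1 : |Gq B a u (Real.log n)| ≤ 2 * M * Real.exp (-(a / 4)) := by
      refine Gq_le hM hM0 ?_
      intro ξ h1 h2
      apply Real.exp_le_exp.2
      have h3 : a / 2 ≤ u + ξ * a - Real.log n := by nlinarith
      nlinarith
    have h2 : (Real.sqrt n)⁻¹ ≤ 1 := inv_le_one_of_one_le₀ (by rw [Real.one_le_sqrt]; exact hn1)
    calc _ ≤ 1 * (2 * M * Real.exp (-(a / 4))) :=
          mul_le_mul h2 h1 (abs_nonneg _) zero_le_one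
      _ = _ := one_mul _
  · have h1 : |Gq B a u (Real.log n)| ≤ 2 * M * 1 := by
      refine Gq_le hM hM0 ?_
      intro ξ _ _
      rw [Real.exp_le_one_iff]
      nlinarith [sq_nonneg (u + ξ * a - Real.log n)]
    have h2 : (Real.sqrt n)⁻¹ ≤ Real.exp (-(a / 4)) := by
      rw [Real.exp_neg]
      apply inv_anti₀ (Real.exp_pos _)
      apply Real.le_sqrt_of_sq_le
      rw [← Real.exp_nat_mul, ← Real.le_log_iff_exp_le hn0]
      push_cast
      linarith
    calc _ ≤ Real.exp (-(a / 4)) * (2 * M * 1) :=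
          mul_le_mul h2 h1 (abs_nonneg _) (Real.exp_pos _).le
      _ = _ := by ring

/-! ### the non rough integers -/

/-- no small prime factors -/
def Ro (y : ℝ) (n : ℕ) : Prop := ∀ p : ℕ, p.Prime → p ∣ n → y < p

open Classical in
/-- the number of prime powers of small primes -/
theorem card_le (y : ℝ) (X : ℕ) :
    ((Finset.Icc 1 X).filter (fun n => ¬ Ro y n ∧ ArithmeticFunction.vonMangoldt n ≠ 0)).card ≤
      ⌊y⌋₊ * (Nat.log 2 X + 1) := by
  have h : ((Finset.Icc 1 X).filter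
      (fun n => ¬ Ro y n ∧ ArithmeticFunction.vonMangoldt n ≠ 0)).card ≤
      (Finset.Icc 1 ⌊y⌋₊ ×ˢ Finset.range (Nat.log 2 X + 1)).card := by
    apply Finset.card_le_card_of_injOn (fun n => (n.minFac, n.factorization n.minFac))
    · intro n hn
      rw [Finset.mem_coe, Finset.mem_filter, Finset.mem_Icc] at hn
      obtain ⟨⟨h1, h2⟩, h3, h4⟩ := hn
      have h5 : IsPrimePow n := ArithmeticFunction.vonMangoldt_ne_zero_iff.1 h4
      have h6 := h5.minFac_pow_factorization_eq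
      unfold Ro at h3
      push Not at h3
      obtain ⟨p, hp, hpn, hpy⟩ := h3
      have h7 : n.minFac ≤ p := Nat.minFac_le_of_dvd hp.two_le hpn
      have h8 : (n.minFac : ℝ) ≤ y := le_trans (by exact_mod_cast h7) hpy
      rw [Finset.mem_coe, Finset.mem_product, Finset.mem_Icc, Finset.mem_range]
      refine ⟨⟨n.minFac_pos, Nat.le_floor h8⟩, Nat.lt_succ_of_le ?_⟩
      have h9 : 2 ^ n.factorization n.minFac ≤ X := by
        calc 2 ^ n.factorization n.minFac ≤ n.minFac ^ n.factorization n.minFac :=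
              Nat.pow_le_pow_left (Nat.minFac_prime h5.one_lt.ne').two_le _
          _ = n := h6
          _ ≤ X := h2
      exact (Nat.le_log_iff_pow_le (by norm_num) (by omega)).2 h9
    · intro n hn m hm hnm
      rw [Finset.mem_coe, Finset.mem_filter] at hn hm
      have h1 := (ArithmeticFunction.vonMangoldt_ne_zero_iff.1 hn.2.2).minFac_pow_factorization_eq
      have h2 := (ArithmeticFunction.vonMangoldt_ne_zero_iff.1 hm.2.2).minFac_pow_factorization_eq
      simp only [Prod.mk.injEq] at hnm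
      rw [← h1, ← h2, hnm.2, hnm.1]
  refine h.trans ?_
  rw [Finset.card_product, Finset.card_range, Nat.card_Icc]
  simp

theorem norm_pow_it {n : ℕ} (hn : 1 ≤ n) (t : ℝ) : ‖(n : ℂ) ^ (-(t : ℂ) * I)‖ = 1 := by
  rw [Complex.norm_natCast_cpow_of_pos (by omega)]
  simp

open Classical in
/-- the contribution of the small primes -/
theorem smooth_le {B : ℝ → ℝ} {a u L y : ℝ} {X : ℕ} {cc : ℕ → ℂ} (hM : ∀ ξ, |B ξ| ≤ L)
    (hL : 1 ≤ L) (ha : 2 ≤ a) (hu : 2 * a ≤ u) (hX : Real.log X ≤ L) (hy : 0 ≤ y)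
    (hcc : ∀ n, ‖cc n‖ ≤ ArithmeticFunction.vonMangoldt n) (t : ℝ) :
    ‖∑ n ∈ Finset.Icc 1 X, (if Ro y n then 0 else cc n *
      (((Real.sqrt n)⁻¹ * Gq B a u (Real.log n) : ℝ) : ℂ)) * (n : ℂ) ^ (-(t : ℂ) * I)‖ ≤
      y * (2 * L + 1) * (2 * L ^ 2 * Real.exp (-(a / 4))) := by
  have hL0 : 0 ≤ L := by linarith
  have h1 : ‖∑ n ∈ Finset.Icc 1 X, (if Ro y n then 0 else cc n *
      (((Real.sqrt n)⁻¹ * Gq B a u (Real.log n) : ℝ) : ℂ)) * (n : ℂ) ^ (-(t : ℂ) * I)‖ ≤
      ∑ n ∈ Finset.Icc 1 X, if (¬ Ro y n ∧ ArithmeticFunction.vonMangoldt n ≠ 0) then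
        (2 * L ^ 2 * Real.exp (-(a / 4))) else 0 := by
    refine norm_sum_le_of_le _ ?_
    intro n hn
    rw [Finset.mem_Icc] at hn
    rw [norm_mul, norm_pow_it hn.1, mul_one]
    by_cases hr : Ro y n
    · rw [if_pos hr, norm_zero]
      split_ifs <;> positivity
    · rw [if_neg hr, norm_mul, Complex.norm_real, Real.norm_eq_abs]
      by_cases hv : ArithmeticFunction.vonMangoldt n = 0
      · have : ‖cc n‖ = 0 := le_antisymm (by rw [← hv]; exact hcc n) (norm_nonneg _)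
        rw [this, zero_mul]
        split_ifs <;> positivity
      · rw [if_pos ⟨hr, hv⟩]
        have h2 : ‖cc n‖ ≤ L := by
          refine (hcc n).trans (ArithmeticFunction.vonMangoldt_le_log.trans ?_)
          refine le_trans ?_ hX
          exact Real.log_le_log (by exact_mod_cast hn.1) (by exact_mod_cast hn.2)
        have h3 := coef_le hM hL0 ha hu hn.1
        calc _ ≤ L * (2 * L * Real.exp (-(a / 4))) := mul_le_mul h2 h3 (abs_nonneg _) hL0
          _ = _ := by ring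
  refine h1.trans ?_
  rw [← Finset.sum_filter, Finset.sum_const, nsmul_eq_mul]
  apply mul_le_mul_of_nonneg_right _ (by positivity)
  have h2 := card_le y X
  have h3 : ((⌊y⌋₊ * (Nat.log 2 X + 1) : ℕ) : ℝ) ≤ y * (2 * L + 1) := by
    push_cast
    apply mul_le_mul (Nat.floor_le hy) _ (by positivity) hy
    have h4 : (Nat.log 2 X : ℝ) ≤ 2 * L := by
      rcases Nat.eq_zero_or_pos X with h0 | h0
      · rw [h0]
        simp only [Nat.log_zero_right, CharP.cast_eq_zero]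
        linarith
      · have h5 : 2 ^ Nat.log 2 X ≤ X := Nat.pow_log_le_self 2 (by omega)
        have h6 : Real.log ((2 : ℝ) ^ Nat.log 2 X) ≤ Real.log X :=
          Real.log_le_log (by positivity) (by exact_mod_cast h5)
        rw [Real.log_pow] at h6
        have h7 := Real.log_two_gt_d9
        have h8 : (Nat.log 2 X : ℝ) * (1 / 2) ≤ (Nat.log 2 X : ℝ) * Real.log 2 :=
          mul_le_mul_of_nonneg_left (by linarith) (by positivity)
        linarith
    linarith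
  exact le_trans (by exact_mod_cast h2) h3

/-! ### the error term tends to zero -/

theorem eta_tendsto {c τ : ℝ} (hc : c < 1) (hτ : 0 < τ) :
    Tendsto (fun L : ℝ => Real.exp (L ^ c) * (2 * L + 1) *
      (2 * L ^ 2 * Real.exp (-(τ * L / 4)))) atTop (𝓝 0) := by
  have h1 : Tendsto (fun L : ℝ => 6 * (8 / τ) ^ 3 * ((τ / 8 * L) ^ 3 * Real.exp (-(τ / 8 * L))))
      atTop (𝓝 0) := by
    have h2 := (Real.tendsto_pow_mul_exp_neg_atTop_nhds_zero 3).comp
      (tendsto_id.const_mul_atTop (show 0 < τ / 8 by positivity))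
    have h3 := h2.const_mul (6 * (8 / τ) ^ 3)
    rw [mul_zero] at h3
    exact h3
  have h2 : ∀ᶠ L : ℝ in atTop, L ^ c ≤ τ / 8 * L := by
    have h3 : Tendsto (fun L : ℝ => L ^ (-(1 - c))) atTop (𝓝 0) :=
      tendsto_rpow_neg_atTop (by linarith)
    filter_upwards [h3.eventually_le_const (show 0 < τ / 8 by positivity), eventually_gt_atTop 0]
      with L h4 h5
    have h6 : L ^ c = L ^ (-(1 - c)) * L := by
      rw [← Real.rpow_add_one h5.ne']
      congr 1
      ring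
    rw [h6]
    exact mul_le_mul_of_nonneg_right h4 h5.le
  refine squeeze_zero' ?_ ?_ h1
  · filter_upwards [eventually_ge_atTop 1] with L hL
    have : 0 ≤ L := by linarith
    positivity
  · filter_upwards [h2, eventually_ge_atTop 1] with L h3 hL
    have hL0 : 0 < L := by linarith
    have h4 : Real.exp (L ^ c) ≤ Real.exp (τ / 8 * L) := Real.exp_le_exp.2 h3
    have h5 : Real.exp (τ / 8 * L) * Real.exp (-(τ * L / 4)) = Real.exp (-(τ / 8 * L)) := by
      rw [← Real.exp_add]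
      congr 1
      ring
    have h6 : (2 * L + 1) * (2 * L ^ 2) ≤ 6 * L ^ 3 := by nlinarith [sq_nonneg L]
    calc Real.exp (L ^ c) * (2 * L + 1) * (2 * L ^ 2 * Real.exp (-(τ * L / 4)))
        ≤ Real.exp (τ / 8 * L) * (2 * L + 1) * (2 * L ^ 2 * Real.exp (-(τ * L / 4))) := by
          gcongr
      _ = (2 * L + 1) * (2 * L ^ 2) * (Real.exp (τ / 8 * L) * Real.exp (-(τ * L / 4))) := by ring
      _ = (2 * L + 1) * (2 * L ^ 2) * Real.exp (-(τ / 8 * L)) := by rw [h5]
      _ ≤ 6 * L ^ 3 * Real.exp (-(τ / 8 * L)) :=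
          mul_le_mul_of_nonneg_right h6 (Real.exp_pos _).le
      _ = 6 * (8 / τ) ^ 3 * ((τ / 8 * L) ^ 3 * Real.exp (-(τ / 8 * L))) := by
          field_simp

/-! ### continuity -/

theorem cont_Pc (c T : ℝ) : Continuous (fun t : ℝ => Pc c T t) := by
  unfold Pc Py
  refine continuous_finsetSum _ fun p hp => ?_
  rw [Finset.mem_filter] at hp
  have hp0 : (p : ℂ) ≠ 0 := by exact_mod_cast hp.2.ne_zero
  exact Continuous.const_cpow (by fun_prop) (Or.inl hp0)

theorem cont_V (κ c A T : ℝ) : Continuous (fun t : ℝ => V κ c A T t) := by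
  unfold V Qk tex
  have h := cont_Pc c T
  fun_prop

theorem V_nonneg (κ c A T t : ℝ) : 0 ≤ V κ c A T t := by
  unfold V
  positivity

theorem cont_sum {X : ℕ} {w : ℕ → ℝ → ℂ} (hw : ∀ n, Continuous (w n)) :
    Continuous (fun q : ℝ × ℝ => ∑ n ∈ Finset.Icc 1 X, w n q.1 * (n : ℂ) ^ (-(q.2 : ℂ) * I)) := by
  refine continuous_finsetSum _ fun n hn => ?_
  rw [Finset.mem_Icc] at hn
  have hn0 : (n : ℂ) ≠ 0 := by exact_mod_cast (by omega : n ≠ 0)
  refine ((hw n).comp continuous_fst).mul ?_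
  exact Continuous.const_cpow (by fun_prop) (Or.inl hn0)

theorem sq_add_le {θ : ℝ} (hθ : 0 < θ) (x z : ℂ) :
    ‖x + z‖ ^ 2 ≤ (1 + θ) * ‖x‖ ^ 2 + (1 + 1 / θ) * ‖z‖ ^ 2 := by
  have h1 : ‖x + z‖ ^ 2 ≤ (‖x‖ + ‖z‖) ^ 2 := by
    have := norm_add_le x z
    gcongr
  have h2 : 0 ≤ (θ * ‖x‖ - ‖z‖) ^ 2 / θ := by positivity
  have h3 : (θ * ‖x‖ - ‖z‖) ^ 2 / θ = θ * ‖x‖ ^ 2 - 2 * ‖x‖ * ‖z‖ + 1 / θ * ‖z‖ ^ 2 := by
    field_simp
    ring
  nlinarith

/-- the mean value, in an abstract form -/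
theorem abs_mean {R Vf S : ℝ → ℝ} {x z : ℝ → ℝ → ℂ} (hR : Continuous R) (hV : Continuous Vf)
    (hS : Continuous S) (hx : Continuous (fun q : ℝ × ℝ => x q.1 q.2))
    (hz : Continuous (fun q : ℝ × ℝ => z q.1 q.2)) (hV0 : ∀ t, 0 ≤ Vf t) {a b T1 T2 : ℝ}
    (hab : a ≤ b) (hT : T1 ≤ T2) (hR0 : ∀ y ∈ Set.Icc a b, 0 ≤ R y) {θ η : ℝ} (hθ : 0 < θ)
    (hzη : ∀ y ∈ Set.Icc a b, ∀ t, ‖z y t‖ ≤ η)
    (hxS : ∀ y ∈ Set.Icc a b, ∫ t in T1..T2, Vf t * ‖x y t‖ ^ 2 ≤
      (1 + θ) * (∫ t in T1..T2, Vf t) * S y) :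
    ∫ t in T1..T2, Vf t * (2 * ∫ y in a..b, R y * ‖x y t + z y t‖ ^ 2) ≤
      (1 + θ) * ((1 + θ) * (∫ t in T1..T2, Vf t) * (2 * ∫ y in a..b, R y * S y)) +
        (1 + 1 / θ) * η ^ 2 * (2 * ∫ y in a..b, R y) * ∫ t in T1..T2, Vf t := by
  have hxs : Continuous (fun q : ℝ × ℝ => x q.2 q.1) :=
    hx.comp (continuous_snd.prodMk continuous_fst)
  have hzs : Continuous (fun q : ℝ × ℝ => z q.2 q.1) :=
    hz.comp (continuous_snd.prodMk continuous_fst)
  have hxz : Continuous (fun q : ℝ × ℝ => R q.2 * ‖x q.2 q.1 + z q.2 q.1‖ ^ 2) :=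
    (hR.comp continuous_snd).mul ((hxs.add hzs).norm.pow 2)
  have hxx : Continuous (fun q : ℝ × ℝ => R q.2 * ‖x q.2 q.1‖ ^ 2) :=
    (hR.comp continuous_snd).mul (hxs.norm.pow 2)
  have hDc : Continuous (fun t : ℝ => ∫ y in a..b, R y * ‖x y t + z y t‖ ^ 2) :=
    intervalIntegral.continuous_parametric_intervalIntegral_of_continuous' hxz _ _
  have hIc : Continuous (fun t : ℝ => ∫ y in a..b, R y * ‖x y t‖ ^ 2) :=
    intervalIntegral.continuous_parametric_intervalIntegral_of_continuous' hxx _ _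
  have hDle : ∀ t : ℝ, 2 * ∫ y in a..b, R y * ‖x y t + z y t‖ ^ 2 ≤
      (1 + θ) * (2 * ∫ y in a..b, R y * ‖x y t‖ ^ 2) +
        (1 + 1 / θ) * η ^ 2 * (2 * ∫ y in a..b, R y) := by
    intro t
    have c1 : Continuous fun y => R y * ‖x y t + z y t‖ ^ 2 :=
      hxz.comp (continuous_const.prodMk continuous_id)
    have c2 : Continuous fun y => R y * ‖x y t‖ ^ 2 :=
      hxx.comp (continuous_const.prodMk continuous_id)
    have c3 : Continuous fun y => (1 + θ) * (R y * ‖x y t‖ ^ 2) := continuous_const.mul c2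
    have c4 : Continuous fun y => (1 + 1 / θ) * η ^ 2 * R y := continuous_const.mul hR
    have h1 : ∫ y in a..b, R y * ‖x y t + z y t‖ ^ 2 ≤
        ∫ y in a..b, ((1 + θ) * (R y * ‖x y t‖ ^ 2) + (1 + 1 / θ) * η ^ 2 * R y) := by
      have c7 : Continuous fun y => (1 + θ) * (R y * ‖x y t‖ ^ 2) + (1 + 1 / θ) * η ^ 2 * R y :=
        c3.add c4
      apply intervalIntegral.integral_mono_on hab (c1.intervalIntegrable _ _)
        (c7.intervalIntegrable _ _)
      intro y hy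
      have h2 := sq_add_le hθ (x y t) (z y t)
      have h3 : ‖z y t‖ ^ 2 ≤ η ^ 2 := pow_le_pow_left₀ (norm_nonneg _) (hzη y hy t) 2
      have h4 : (1 + 1 / θ) * ‖z y t‖ ^ 2 ≤ (1 + 1 / θ) * η ^ 2 :=
        mul_le_mul_of_nonneg_left h3 (by positivity)
      have h5 : ‖x y t + z y t‖ ^ 2 ≤ (1 + θ) * ‖x y t‖ ^ 2 + (1 + 1 / θ) * η ^ 2 := by linarith
      have h6 := mul_le_mul_of_nonneg_left h5 (hR0 y hy)
      linarith
    rw [intervalIntegral.integral_add (c3.intervalIntegrable _ _) (c4.intervalIntegrable _ _),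
      intervalIntegral.integral_const_mul, intervalIntegral.integral_const_mul] at h1
    linarith
  -- the main part
  have hcont : Continuous (fun q : ℝ × ℝ => Vf q.1 * (R q.2 * ‖x q.2 q.1‖ ^ 2)) :=
    (hV.comp continuous_fst).mul hxx
  have hsw : ∫ t in T1..T2, ∫ y in a..b, Vf t * (R y * ‖x y t‖ ^ 2) =
      ∫ y in a..b, ∫ t in T1..T2, Vf t * (R y * ‖x y t‖ ^ 2) := by
    apply intervalIntegral_intervalIntegral_swap
    have h1 : IntegrableOn (fun q : ℝ × ℝ => Vf q.1 * (R q.2 * ‖x q.2 q.1‖ ^ 2))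
        (Set.uIcc T1 T2 ×ˢ Set.uIcc a b) :=
      hcont.continuousOn.integrableOn_compact (isCompact_uIcc.prod isCompact_uIcc)
    exact h1.mono_set (Set.prod_mono Set.uIoc_subset_uIcc Set.uIoc_subset_uIcc)
  have hFub : ∫ t in T1..T2, Vf t * (2 * ∫ y in a..b, R y * ‖x y t‖ ^ 2) =
      2 * ∫ y in a..b, R y * ∫ t in T1..T2, Vf t * ‖x y t‖ ^ 2 := by
    have h1 : ∀ t : ℝ, Vf t * (2 * ∫ y in a..b, R y * ‖x y t‖ ^ 2) =
        2 * ∫ y in a..b, Vf t * (R y * ‖x y t‖ ^ 2) := by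
      intro t
      rw [intervalIntegral.integral_const_mul]
      ring
    have h2 : ∀ y : ℝ, ∫ t in T1..T2, Vf t * (R y * ‖x y t‖ ^ 2) =
        R y * ∫ t in T1..T2, Vf t * ‖x y t‖ ^ 2 := by
      intro y
      rw [← intervalIntegral.integral_const_mul]
      congr 1
      funext t
      ring
    simp_rw [h1]
    rw [intervalIntegral.integral_const_mul, hsw]
    simp_rw [h2]
  have hmain : 2 * ∫ y in a..b, R y * ∫ t in T1..T2, Vf t * ‖x y t‖ ^ 2 ≤
      (1 + θ) * (∫ t in T1..T2, Vf t) * (2 * ∫ y in a..b, R y * S y) := by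
    have hVx : Continuous (fun q : ℝ × ℝ => Vf q.2 * ‖x q.1 q.2‖ ^ 2) :=
      (hV.comp continuous_snd).mul (hx.norm.pow 2)
    have h2 : Continuous (fun y : ℝ => ∫ t in T1..T2, Vf t * ‖x y t‖ ^ 2) :=
      intervalIntegral.continuous_parametric_intervalIntegral_of_continuous' hVx _ _
    have h1 : ∫ y in a..b, R y * ∫ t in T1..T2, Vf t * ‖x y t‖ ^ 2 ≤
        ∫ y in a..b, (1 + θ) * (∫ t in T1..T2, Vf t) * (R y * S y) := by
      have c7 : Continuous fun y => R y * ∫ t in T1..T2, Vf t * ‖x y t‖ ^ 2 := hR.mul h2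
      have c8 : Continuous fun y => (1 + θ) * (∫ t in T1..T2, Vf t) * (R y * S y) :=
        continuous_const.mul (hR.mul hS)
      apply intervalIntegral.integral_mono_on hab (c7.intervalIntegrable _ _)
        (c8.intervalIntegrable _ _)
      intro y hy
      have h3 := mul_le_mul_of_nonneg_left (hxS y hy) (hR0 y hy)
      linarith
    rw [intervalIntegral.integral_const_mul] at h1
    linarith
  have c5 : Continuous fun t => (1 + θ) * (Vf t * (2 * ∫ y in a..b, R y * ‖x y t‖ ^ 2)) :=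
    continuous_const.mul (hV.mul (continuous_const.mul hIc))
  have c6 : Continuous fun t => (1 + 1 / θ) * η ^ 2 * (2 * ∫ y in a..b, R y) * Vf t :=
    continuous_const.mul hV
  have h1 : ∫ t in T1..T2, Vf t * (2 * ∫ y in a..b, R y * ‖x y t + z y t‖ ^ 2) ≤
      ∫ t in T1..T2, ((1 + θ) * (Vf t * (2 * ∫ y in a..b, R y * ‖x y t‖ ^ 2)) +
        (1 + 1 / θ) * η ^ 2 * (2 * ∫ y in a..b, R y) * Vf t) := by
    have c7 : Continuous fun t => Vf t * (2 * ∫ y in a..b, R y * ‖x y t + z y t‖ ^ 2) :=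
      hV.mul (continuous_const.mul hDc)
    have c8 : Continuous fun t => (1 + θ) * (Vf t * (2 * ∫ y in a..b, R y * ‖x y t‖ ^ 2)) +
        (1 + 1 / θ) * η ^ 2 * (2 * ∫ y in a..b, R y) * Vf t := c5.add c6
    apply intervalIntegral.integral_mono_on hT (c7.intervalIntegrable _ _)
      (c8.intervalIntegrable _ _)
    intro t _
    have h2 := mul_le_mul_of_nonneg_left (hDle t) (hV0 t)
    linarith
  rw [intervalIntegral.integral_add (c5.intervalIntegrable _ _) (c6.intervalIntegrable _ _),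
    intervalIntegral.integral_const_mul, intervalIntegral.integral_const_mul, hFub] at h1
  have h2 := mul_le_mul_of_nonneg_left hmain (show 0 ≤ 1 + θ by positivity)
  linarith

theorem dec (B : ℝ → ℝ) (cc : ℕ → ℂ) (a u : ℝ) (X : ℕ) (ha : 0 ≤ a) (hu : a ≤ u)
    (t : ℝ) (P : ℕ → Prop) [DecidablePred P] :
    DPp cc B a u X t =
      ∑ n ∈ Finset.Icc 1 X, (if P n then cc n *
        (((Real.sqrt n)⁻¹ * Gq B a u (Real.log n) : ℝ) : ℂ) else 0) * (n : ℂ) ^ (-(t : ℂ) * I) +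
      ∑ n ∈ Finset.Icc 1 X, (if P n then 0 else cc n *
        (((Real.sqrt n)⁻¹ * Gq B a u (Real.log n) : ℝ) : ℂ)) * (n : ℂ) ^ (-(t : ℂ) * I) := by
  unfold DPp dp
  rw [← Finset.sum_add_distrib]
  refine Finset.sum_congr rfl fun n _ => ?_
  rw [← add_mul, Gp_eq ha hu]
  congr 1
  split_ifs <;> simp

theorem const_choice {δ : ℝ} (hδ : 0 < δ) : ∃ θ : ℝ, 0 < θ ∧ (1 + θ) * (1 + θ) ≤ 1 + δ := by
  refine ⟨min δ 1 / 3, by positivity, ?_⟩
  have h1 := min_le_right δ 1
  have h2 := min_le_left δ 1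
  have h3 : 0 < min δ 1 := by positivity
  nlinarith

open Classical in
theorem t_VDQ (hVMR : P_VMR) : P_VDQ := by
  intro R hR hR0 κ c A ε τ δ hc hc1 hε hε2 hτ hτε hδ
  -- the constants
  obtain ⟨θ, hθ0, hθδ⟩ := const_choice hδ
  have h4τ : 4 * τ ≤ 1 := by linarith
  obtain ⟨KR, hKR⟩ : ∃ KR : ℝ, KR = ∫ y in (4 * τ)..1, R y := ⟨_, rfl⟩
  have hη : Tendsto (fun T : ℝ => (Real.exp (Real.log T ^ c) * (2 * Real.log T + 1) *
      (2 * Real.log T ^ 2 * Real.exp (-(τ * Real.log T / 4))))) atTop (𝓝 0) :=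
    (eta_tendsto hc1 hτ).comp Real.tendsto_log_atTop
  have hη2 : ∀ᶠ T : ℝ in atTop, (1 + 1 / θ) * (Real.exp (Real.log T ^ c) *
      (2 * Real.log T + 1) * (2 * Real.log T ^ 2 * Real.exp (-(τ * Real.log T / 4)))) ^ 2 *
      (2 * KR) ≤ 1 := by
    have h1 := ((hη.pow 2).const_mul (1 + 1 / θ)).mul_const (2 * KR)
    rw [zero_pow (by norm_num), mul_zero, zero_mul] at h1
    exact h1.eventually_le_const zero_lt_one
  have hLtop := Real.tendsto_log_atTop
  filter_upwards [hVMR κ c A (ε / 8) θ hc hc1 (by positivity) hθ0, hη2,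
    hLtop.eventually_ge_atTop 1, hLtop.eventually_ge_atTop (2 / τ), eventually_ge_atTop 1]
    with T hV hη3 hL1 hLτ hT1
  intro B cc hB hBL hcc
  have hXT0 : ((XT ε T : ℕ) : ℝ) ≤ T ^ (1 - ε / 4) := Nat.floor_le (by positivity)
  unfold Dq
  generalize XT ε T = X at hXT0 ⊢
  obtain ⟨L, hL⟩ : ∃ L : ℝ, L = Real.log T := ⟨_, rfl⟩
  rw [← hL] at hη3 hL1 hLτ hBL ⊢
  have hL0 : 0 < L := by linarith
  have ha2 : 2 ≤ τ * L := by
    rw [div_le_iff₀ hτ] at hLτ
    linarith
  have hXT : (X : ℝ) ≤ T ^ (1 - ε / 8) :=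
    hXT0.trans (Real.rpow_le_rpow_of_exponent_le hT1 (by linarith))
  have hXL : Real.log X ≤ L := by
    rcases Nat.eq_zero_or_pos X with h0 | h0
    · rw [h0]
      simp only [CharP.cast_eq_zero, Real.log_zero]
      linarith
    · rw [hL]
      apply Real.log_le_log (by exact_mod_cast h0)
      refine hXT.trans ?_
      calc T ^ (1 - ε / 8) ≤ T ^ (1 : ℝ) :=
            Real.rpow_le_rpow_of_exponent_le hT1 (by linarith)
        _ = T := Real.rpow_one T
  -- the frequencies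
  have hU : ∀ y : ℝ, 4 * τ ≤ y → 2 * (τ * L) ≤ (1 - ε) * L * y := by
    intro y hy
    have h1 : (1 / 2) * L ≤ (1 - ε) * L := mul_le_mul_of_nonneg_right (by linarith) hL0.le
    have h2 : (1 / 2) * L * (4 * τ) ≤ (1 - ε) * L * y :=
      mul_le_mul h1 hy (by positivity) (by
        have : 0 < 1 - ε := by linarith
        positivity)
    linarith
  have haL : 0 ≤ τ * L := by linarith
  -- the coefficients
  have hwc : ∀ n : ℕ, Continuous (fun y : ℝ => cc n *
      (((Real.sqrt n)⁻¹ * Gq B (τ * L) ((1 - ε) * L * y) (Real.log n) : ℝ) : ℂ)) := by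
    intro n
    have h1 : Continuous (fun y : ℝ => Gq B (τ * L) ((1 - ε) * L * y) (Real.log n)) :=
      (Gq_cont hB (τ * L) (Real.log n)).comp (by fun_prop)
    fun_prop
  have hw1c : ∀ n : ℕ, Continuous (fun y : ℝ => if Ro (yc c T) n then cc n *
      (((Real.sqrt n)⁻¹ * Gq B (τ * L) ((1 - ε) * L * y) (Real.log n) : ℝ) : ℂ) else 0) := by
    intro n
    split_ifs
    · exact hwc n
    · exact continuous_const
  have hw2c : ∀ n : ℕ, Continuous (fun y : ℝ => if Ro (yc c T) n then 0 else cc n *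
      (((Real.sqrt n)⁻¹ * Gq B (τ * L) ((1 - ε) * L * y) (Real.log n) : ℝ) : ℂ)) := by
    intro n
    split_ifs
    · exact continuous_const
    · exact hwc n
  have hSc : Continuous (fun y : ℝ => ∑ n ∈ Finset.Icc 1 X, (ArithmeticFunction.vonMangoldt n *
      ((Real.sqrt n)⁻¹ * Gq B (τ * L) ((1 - ε) * L * y) (Real.log n))) ^ 2) := by
    refine continuous_finsetSum _ fun n _ => ?_
    have h1 : Continuous (fun y : ℝ => Gq B (τ * L) ((1 - ε) * L * y) (Real.log n)) :=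
      (Gq_cont hB (τ * L) (Real.log n)).comp (by fun_prop)
    fun_prop
  have hRy : ∀ y ∈ Set.Icc (4 * τ) 1, 0 ≤ R y := fun y hy => hR0 y ⟨by linarith [hy.1], hy.2⟩
  have hT2 : T ≤ 2 * T := by linarith
  have key := abs_mean (R := R) (Vf := fun t => V κ c A T t) hR (cont_V κ c A T) hSc
    (cont_sum (X := X) hw1c) (cont_sum (X := X) hw2c) (V_nonneg κ c A T) h4τ hT2 hRy hθ0
    (η := Real.exp (L ^ c) * (2 * L + 1) * (2 * L ^ 2 * Real.exp (-(τ * L / 4))))
    (fun y hy t => by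
      have h1 := smooth_le (B := B) (a := τ * L) (u := (1 - ε) * L * y) (L := L) (y := yc c T)
        (X := X) (cc := cc) hBL hL1 ha2 (hU y hy.1) hXL (Real.exp_pos _).le hcc t
      have h2 : yc c T = Real.exp (L ^ c) := by rw [hL]; rfl
      rw [← h2]
      exact h1)
    (fun y hy => by
      refine (hV X hXT (fun n => if Ro (yc c T) n then cc n *
        (((Real.sqrt n)⁻¹ * Gq B (τ * L) ((1 - ε) * L * y) (Real.log n) : ℝ) : ℂ) else 0)
        ?_).trans ?_
      · intro n p hb hp hpn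
        by_cases hr : Ro (yc c T) n
        · exact hr p hp hpn
        · simp only [if_neg hr] at hb
          exact absurd rfl hb
      · have hIV0 : 0 ≤ IV κ c A T :=
          intervalIntegral.integral_nonneg hT2 (fun t _ => V_nonneg κ c A T t)
        apply mul_le_mul_of_nonneg_left _ (by positivity)
        apply Finset.sum_le_sum
        intro n _
        have h1 : ‖(if Ro (yc c T) n then cc n *
            (((Real.sqrt n)⁻¹ * Gq B (τ * L) ((1 - ε) * L * y) (Real.log n) : ℝ) : ℂ) else 0)‖ ≤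
            |ArithmeticFunction.vonMangoldt n *
            ((Real.sqrt n)⁻¹ * Gq B (τ * L) ((1 - ε) * L * y) (Real.log n))| := by
          split_ifs
          · rw [abs_mul (ArithmeticFunction.vonMangoldt n),
              abs_of_nonneg ArithmeticFunction.vonMangoldt_nonneg, norm_mul, Complex.norm_real,
              Real.norm_eq_abs]
            exact mul_le_mul_of_nonneg_right (hcc n) (abs_nonneg _)
          · rw [norm_zero]
            exact abs_nonneg _
        exact (pow_le_pow_left₀ (norm_nonneg _) h1 2).trans (le_of_eq (sq_abs _)))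
  have hLHS : ∫ t in T..(2 * T), V κ c A T t * (2 * ∫ y in (4 * τ)..1,
      R y * ‖DPp cc B (τ * L) ((1 - ε) * L * y) X t‖ ^ 2) =
      ∫ t in T..(2 * T), V κ c A T t * (2 * ∫ y in (4 * τ)..1, R y *
        ‖(∑ n ∈ Finset.Icc 1 X, (if Ro (yc c T) n then cc n *
        (((Real.sqrt n)⁻¹ * Gq B (τ * L) ((1 - ε) * L * y) (Real.log n) : ℝ) : ℂ) else 0) *
          (n : ℂ) ^ (-(t : ℂ) * I)) +
        (∑ n ∈ Finset.Icc 1 X, (if Ro (yc c T) n then 0 else cc n *
        (((Real.sqrt n)⁻¹ * Gq B (τ * L) ((1 - ε) * L * y) (Real.log n) : ℝ) : ℂ)) *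
          (n : ℂ) ^ (-(t : ℂ) * I))‖ ^ 2) := by
    apply intervalIntegral.integral_congr
    intro t _
    simp only
    congr 2
    apply intervalIntegral.integral_congr
    intro y hy
    rw [Set.uIcc_of_le h4τ] at hy
    simp only
    rw [dec B cc (τ * L) ((1 - ε) * L * y) X haL (by linarith [hU y hy.1]) t
      (fun n => Ro (yc c T) n)]
  have hRHS : ∫ y in (4 * τ)..1, R y * ∑ n ∈ Finset.Icc 1 X,
      (ArithmeticFunction.vonMangoldt n *
        ((Real.sqrt n)⁻¹ * Gp B (τ * L) ((1 - ε) * L * y) (Real.log n))) ^ 2 =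
      ∫ y in (4 * τ)..1, R y * ∑ n ∈ Finset.Icc 1 X,
      (ArithmeticFunction.vonMangoldt n *
        ((Real.sqrt n)⁻¹ * Gq B (τ * L) ((1 - ε) * L * y) (Real.log n))) ^ 2 := by
    apply intervalIntegral.integral_congr
    intro y hy
    rw [Set.uIcc_of_le h4τ] at hy
    simp only
    congr 1
    refine Finset.sum_congr rfl fun n _ => ?_
    rw [Gp_eq haL (by linarith [hU y hy.1])]
  rw [hLHS, hRHS]
  refine key.trans ?_
  have hZ0 : 0 ≤ 2 * ∫ y in (4 * τ)..1, R y * ∑ n ∈ Finset.Icc 1 X,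
      (ArithmeticFunction.vonMangoldt n *
        ((Real.sqrt n)⁻¹ * Gq B (τ * L) ((1 - ε) * L * y) (Real.log n))) ^ 2 := by
    apply mul_nonneg (by norm_num)
    apply intervalIntegral.integral_nonneg h4τ
    intro y hy
    exact mul_nonneg (hRy y hy) (Finset.sum_nonneg fun n _ => sq_nonneg _)
  have hIV : 0 ≤ IV κ c A T :=
    intervalIntegral.integral_nonneg hT2 (fun t _ => V_nonneg κ c A T t)
  have hIVe : ∫ t in T..(2 * T), V κ c A T t = IV κ c A T := rfl
  rw [hIVe, ← hKR]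
  generalize 2 * ∫ y in (4 * τ)..1, R y * ∑ n ∈ Finset.Icc 1 X,
      (ArithmeticFunction.vonMangoldt n *
        ((Real.sqrt n)⁻¹ * Gq B (τ * L) ((1 - ε) * L * y) (Real.log n))) ^ 2 = Z at hZ0 ⊢
  have h1 : (1 + θ) * ((1 + θ) * IV κ c A T * Z) ≤ (1 + δ) * (IV κ c A T * Z) := by
    have := mul_le_mul_of_nonneg_right hθδ (mul_nonneg hIV hZ0)
    linarith
  have h2 := mul_le_mul_of_nonneg_right hη3 hIV
  have h3 : 0 ≤ δ * IV κ c A T := mul_nonneg hδ.le hIV
  linarith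

end

end Pool.Agent.Y811.LD
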